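import Mathlib

set_option autoImplicit false

/-!
# Integer-valued polynomials on an algebra
-/

namespace Pool.Agent.H13.IntVal

open scoped TensorProduct Polynomial

/-- The `K`-algebra `B = K ⊗[D] A`, where `K` is the field of fractions of `D`. -/
abbrev BB (D : Type*) (A : Type*) [CommRing D] [Ring A] [Algebra D A] : Type _ :=
  FractionRing D ⊗[D] A

/-- The image of `A` in `B = K ⊗[D] A`, as a `D`-subalgebra. -/
noncomputable def imageA (D : Type*) (A : Type*) [CommRing D] [Ring A] [Algebra D A] :
    Subalgebra D (BB D A) :=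
  (Algebra.TensorProduct.includeRight : A →ₐ[D] BB D A).range

/-- The ring `Int_K(A)` of all `f` in `K[X]` with `f(a) ∈ A` for all `a ∈ A`, as a subring of
`K[X]`. -/
noncomputable def IntK (D : Type*) (A : Type*) [CommRing D] [Ring A] [Algebra D A] :
    Subring (FractionRing D)[X] where
  carrier := {f | ∀ a : A, Polynomial.aeval ((1 : FractionRing D) ⊗ₜ[D] a) f ∈ imageA D A}
  mul_mem' := by
    intro f g hf hg a
    rw [map_mul]
    exact mul_mem (hf a) (hg a)
  one_mem' := by
    intro a
    rw [map_one]
    exact one_mem _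
  add_mem' := by
    intro f g hf hg a
    rw [map_add]
    exact add_mem (hf a) (hg a)
  zero_mem' := by
    intro a
    rw [map_zero]
    exact zero_mem _
  neg_mem' := by
    intro f hf a
    rw [map_neg]
    exact neg_mem (hf a)

theorem mem_IntK {D : Type*} {A : Type*} [CommRing D] [Ring A] [Algebra D A]
    (f : (FractionRing D)[X]) : f ∈ IntK D A ↔
      ∀ a : A, Polynomial.aeval ((1 : FractionRing D) ⊗ₜ[D] a) f ∈ imageA D A := Iff.rfl

theorem mem_imageA {D : Type*} {A : Type*} [CommRing D] [Ring A] [Algebra D A] (b : BB D A) :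
    b ∈ imageA D A ↔ ∃ a : A, (1 : FractionRing D) ⊗ₜ[D] a = b := Iff.rfl

/-- The map `A → K ⊗[D] A` is the localization at the nonzero elements of `D`. -/
theorem isLocalizedModule_mk (D : Type*) (A : Type*) [CommRing D] [IsDomain D] [Ring A]
    [Algebra D A] :
    IsLocalizedModule (nonZeroDivisors D) (TensorProduct.mk D (FractionRing D) A 1) := by
  rw [isLocalizedModule_iff_isBaseChange (nonZeroDivisors D) (FractionRing D)]
  exact TensorProduct.isBaseChange D A (FractionRing D)

/-- For torsion-free `A` the map `A → K ⊗[D] A` is injective. -/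
theorem tmul_injective {D : Type*} {A : Type*} [CommRing D] [IsDomain D] [Ring A] [Algebra D A]
    [Module.IsTorsionFree D A] {a a' : A}
    (h : (1 : FractionRing D) ⊗ₜ[D] a = (1 : FractionRing D) ⊗ₜ[D] a') : a = a' := by
  have hl := isLocalizedModule_mk D A
  obtain ⟨c, hc⟩ := (IsLocalizedModule.eq_iff_exists (nonZeroDivisors D)
    (TensorProduct.mk D (FractionRing D) A 1) (x₁ := a) (x₂ := a')).mp h
  have hc0 : (c : D) ≠ 0 := nonZeroDivisors.coe_ne_zero c
  exact smul_right_injective A hc0 hc

/-- Every element of `B` has a nonzero multiple in `A`. -/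
theorem exists_smul_mem {D : Type*} {A : Type*} [CommRing D] [IsDomain D] [Ring A] [Algebra D A]
    (b : BB D A) : ∃ d : D, d ≠ 0 ∧ ∃ a : A, d • b = (1 : FractionRing D) ⊗ₜ[D] a := by
  have hl := isLocalizedModule_mk D A
  obtain ⟨⟨a, c⟩, hc⟩ := IsLocalizedModule.surj (nonZeroDivisors D)
    (TensorProduct.mk D (FractionRing D) A 1) b
  exact ⟨c, nonZeroDivisors.coe_ne_zero c, a, hc⟩

end Pool.Agent.H13.IntVal
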