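import Mathlib
import Pool.Agent.H13.IntVal.Defs

set_option autoImplicit false

namespace Pool.Agent.H13.IntVal

open scoped TensorProduct Polynomial
open Polynomial

/-- If `f ∈ K[X]` maps `D` to `D` and `M` is a prime ideal with infinite residue ring, then
`s f ∈ D[X]` for some `s` outside `M`. -/
theorem exists_clear {D : Type*} [CommRing D] [IsDomain D] (f : (FractionRing D)[X])
    (F : D → D) (hF : ∀ a, f.eval (algebraMap D (FractionRing D) a)
      = algebraMap D (FractionRing D) (F a))
    (M : Ideal D) [hM : M.IsPrime] (hinf : Infinite (D ⧸ M)) :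
    ∃ s : D, s ∉ M ∧ ∃ g : D[X], g.map (algebraMap D (FractionRing D))
      = C (algebraMap D (FractionRing D) s) * f := by
  classical
  set K := FractionRing D
  set φ := algebraMap D K with hφ
  have hφi : Function.Injective φ := IsFractionRing.injective D K
  let n := f.natDegree + 1
  let em : Fin n ↪ D ⧸ M := (Fin.valEmbedding).trans (Infinite.natEmbedding (D ⧸ M))
  let a : Fin n → D := fun i => Quotient.out (em i)
  have ha : ∀ i, Ideal.Quotient.mk M (a i) = em i := fun i => Quotient.out_eq _
  have hne : ∀ i j, i ≠ j → a i - a j ∉ M := by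
    intro i j hij h
    apply hij
    apply em.injective
    rw [← ha i, ← ha j, Ideal.Quotient.eq]
    exact h
  let v : Fin n → K := fun i => φ (a i)
  have hv : Set.InjOn v (Finset.univ : Finset (Fin n)) := by
    intro i _ j _ hij
    by_contra hne'
    apply hne i j hne'
    have : a i = a j := hφi hij
    rw [this, sub_self]
    exact M.zero_mem
  have hdeg : f.degree < (Finset.univ : Finset (Fin n)).card := by
    rw [Finset.card_univ, Fintype.card_fin]
    exact lt_of_le_of_lt degree_le_natDegree (by exact_mod_cast Nat.lt_succ_self _)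
  have hint := Lagrange.eq_interpolate (f := f) hv hdeg
  let den : Fin n → D := fun i => ∏ j ∈ Finset.univ.erase i, (a i - a j)
  let rest : Fin n → D := fun i => ∏ k ∈ Finset.univ.erase i, den k
  have hden : ∀ i, den i ∉ M := by
    intro i h
    obtain ⟨j, hj, hj'⟩ := (Ideal.IsPrime.prod_mem_iff (hp := hM)).mp h
    exact hne i j (Finset.ne_of_mem_erase hj).symm hj'
  refine ⟨∏ i, den i, ?_, ∑ i, C (F (a i) * rest i) *
    ∏ j ∈ Finset.univ.erase i, (X - C (a j)), ?_⟩
  · intro h
    obtain ⟨j, hj, hj'⟩ := (Ideal.IsPrime.prod_mem_iff (hp := hM)).mp h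
    exact hden j hj'
  · conv_rhs => rw [hint]
    rw [Polynomial.map_sum, Lagrange.interpolate_apply, Finset.mul_sum]
    refine Finset.sum_congr rfl fun i _ => ?_
    have h1 : φ (∏ i, den i) = φ (den i) * φ (rest i) := by
      rw [← map_mul, Finset.mul_prod_erase _ _ (Finset.mem_univ i)]
    have h2 : Lagrange.basis Finset.univ v i
        = C ((φ (den i))⁻¹) * ∏ j ∈ Finset.univ.erase i, (X - C (φ (a j))) := by
      unfold Lagrange.basis Lagrange.basisDivisor
      rw [Finset.prod_mul_distrib]
      congr 1
      rw [← map_prod]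
      congr 1
      rw [Finset.prod_inv_distrib]
      congr 1
      simp only [den, map_prod, map_sub, v]
    have h3 : φ (den i) ≠ 0 := by
      intro h
      apply hden i
      have : den i = 0 := by
        apply hφi
        rw [h, map_zero]
      rw [this]
      exact M.zero_mem
    rw [h1, h2, hF (a i)]
    simp only [Polynomial.map_mul, Polynomial.map_C, Polynomial.map_prod, Polynomial.map_sub,
      Polynomial.map_X, map_mul]
    have h4 : (C (φ (den i)) : K[X]) * C (φ (den i))⁻¹ = 1 := by
      rw [← C_mul, mul_inv_cancel₀ h3, C_1]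
    linear_combination (-(C (φ (F (a i))) * C (φ (rest i)) *
      ∏ j ∈ Finset.univ.erase i, (X - C (φ (a j))))) * h4

end Pool.Agent.H13.IntVal
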